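import Pool.Agent.Q120.FX.Stm1

/-!
# Project FX, job X2: the kernel is bounded
-/

set_option autoImplicit false
set_option linter.all false

namespace Pool.Agent.Q149.FX.X2

open Pool.Agent.Q120.FX MeasureTheory Filter Topology Set

variable {q : ℕ} (χ : DirichletCharacter ℂ q)

theorem meas_S : Measurable (Sa χ) := by
  have h : Sa χ = (fun n : ℕ => ∑ k ∈ Finset.Icc 1 n, ac χ k) ∘ (fun x : ℝ => ⌊x⌋₊) := rfl
  rw [h]
  exact measurable_from_nat.comp Nat.measurable_floor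

theorem wint {β : ℝ} (hβ : 0 < β) (j : ℕ) :
    IntegrableOn (fun u : ℝ => u ^ (-β - 1) * Real.log u ^ j) (Ioi 1) := by
  set ε : ℝ := β / (2 * (j + 1)) with hε
  have hε0 : 0 < ε := by positivity
  have h1 : IntegrableOn (fun u : ℝ => (1 / ε) ^ j * u ^ (-β / 2 - 1)) (Ioi 1) :=
    (integrableOn_Ioi_rpow_of_lt (by linarith) one_pos).const_mul _
  refine h1.mono' ?_ ?_
  · exact ((measurable_id.pow_const _).mul (Real.measurable_log.pow_const j)).aestronglyMeasurable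
  · refine (ae_restrict_iff' measurableSet_Ioi).2 (Eventually.of_forall fun u hu => ?_)
    have hu1 : (1 : ℝ) < u := hu
    have hu0 : 0 < u := by linarith
    have hl := Real.log_nonneg hu1.le
    have h2 : Real.log u ≤ u ^ ε / ε := Real.log_le_rpow_div hu0.le hε0
    have h3 : Real.log u ^ j ≤ (u ^ ε / ε) ^ j := pow_le_pow_left₀ hl h2 j
    have h4 : (u ^ ε / ε) ^ j = (1 / ε) ^ j * u ^ (ε * j) := by
      rw [div_pow, ← Real.rpow_natCast (u ^ ε), ← Real.rpow_mul hu0.le, one_div, inv_pow]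
      ring
    have h5 : u ^ (-β - 1) * u ^ (ε * j) ≤ u ^ (-β / 2 - 1) := by
      rw [← Real.rpow_add hu0]
      apply Real.rpow_le_rpow_of_exponent_le hu1.le
      have h6 : ε * j ≤ β / 2 := by
        rw [hε, div_mul_eq_mul_div, div_le_div_iff₀ (by positivity) (by norm_num)]
        nlinarith
      linarith
    show ‖u ^ (-β - 1) * Real.log u ^ j‖ ≤ _
    rw [Real.norm_of_nonneg (by positivity)]
    calc u ^ (-β - 1) * Real.log u ^ j ≤ u ^ (-β - 1) * ((1 / ε) ^ j * u ^ (ε * j)) := by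
          rw [← h4]
          gcongr
      _ = (1 / ε) ^ j * (u ^ (-β - 1) * u ^ (ε * j)) := by ring
      _ ≤ (1 / ε) ^ j * u ^ (-β / 2 - 1) := by gcongr

/-- the integrand -/
noncomputable def W (ρ : ℂ) (y : ℝ) (j : ℕ) (u : ℝ) : ℂ :=
  Sa χ u * (u : ℂ) ^ (-ρ - 1) * ((Real.log y : ℂ) - (Real.log u : ℂ)) ^ j

theorem W_sum (ρ : ℂ) (y : ℝ) (j : ℕ) (u : ℝ) : W χ ρ y j u =
    ∑ m ∈ Finset.range (j + 1), ((Real.log y : ℂ) ^ m * (-1) ^ (j - m) * (j.choose m : ℂ)) *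
      (Sa χ u * (u : ℂ) ^ (-ρ - 1) * (Real.log u : ℂ) ^ (j - m)) := by
  rw [W, sub_eq_add_neg (Real.log y : ℂ), add_pow, Finset.mul_sum]
  refine Finset.sum_congr rfl fun m _ => ?_
  rw [neg_pow (Real.log u : ℂ)]
  ring

theorem V_int {B : ℝ} (hB : ∀ u, ‖Sa χ u‖ ≤ B) {ρ : ℂ} (h : 0 < ρ.re) (i : ℕ) :
    IntegrableOn (fun u : ℝ => Sa χ u * (u : ℂ) ^ (-ρ - 1) * (Real.log u : ℂ) ^ i) (Ioi 1) := by
  refine ((wint h i).const_mul B).mono' ?_ ?_
  · exact (((meas_S χ).mul (Complex.measurable_ofReal.pow_const _)).mul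
      ((Complex.measurable_ofReal.comp Real.measurable_log).pow_const i)).aestronglyMeasurable
  · refine (ae_restrict_iff' measurableSet_Ioi).2 (Eventually.of_forall fun u hu => ?_)
    have hu0 : 0 < u := lt_trans one_pos hu
    have hl : 0 ≤ Real.log u := Real.log_nonneg (le_of_lt hu)
    have h3 : (-ρ - 1).re = -ρ.re - 1 := by simp
    show ‖Sa χ u * (u : ℂ) ^ (-ρ - 1) * (Real.log u : ℂ) ^ i‖ ≤
      B * (u ^ (-ρ.re - 1) * Real.log u ^ i)
    rw [norm_mul, norm_mul, norm_pow, Complex.norm_real, Real.norm_of_nonneg hl,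
      Complex.norm_cpow_eq_rpow_re_of_pos hu0, h3, mul_assoc]
    exact mul_le_mul_of_nonneg_right (hB u) (by positivity)

theorem W_int {B : ℝ} (hB : ∀ u, ‖Sa χ u‖ ≤ B) {ρ : ℂ} (h : 0 < ρ.re) (y : ℝ) (j : ℕ) :
    IntegrableOn (W χ ρ y j) (Ioi 1) := by
  have h1 : W χ ρ y j = fun u => ∑ m ∈ Finset.range (j + 1),
      ((Real.log y : ℂ) ^ m * (-1) ^ (j - m) * (j.choose m : ℂ)) *
      (Sa χ u * (u : ℂ) ^ (-ρ - 1) * (Real.log u : ℂ) ^ (j - m)) := funext (W_sum χ ρ y j)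
  rw [h1]
  exact integrable_finset_sum _ fun m _ => (V_int χ hB h _).const_mul _

theorem W_zero {B : ℝ} (hB : ∀ u, ‖Sa χ u‖ ≤ B) {ρ : ℂ} (h : 0 < ρ.re) (y : ℝ) {r : ℕ}
    (hz : ∀ i, i < r + 1 → ∫ u in Ioi (1 : ℝ), Sa χ u * (u : ℂ) ^ (-ρ - 1) *
      (Real.log u : ℂ) ^ i = 0) {j : ℕ} (hj : j ≤ r) :
    ∫ u in Ioi (1 : ℝ), W χ ρ y j u = 0 := by
  simp only [W_sum]
  rw [integral_finset_sum _ fun m _ => (V_int χ hB h _).const_mul _]
  refine Finset.sum_eq_zero fun m _ => ?_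
  rw [integral_const_mul, hz _ (by omega), mul_zero]

theorem tail {B : ℝ} (hB : ∀ u, ‖Sa χ u‖ ≤ B) {ρ : ℂ} (h : 0 < ρ.re) {y : ℝ} (hy : 1 ≤ y)
    (j : ℕ) : ‖(y : ℂ) ^ ρ * ∫ u in Ioi y, W χ ρ y j u‖ ≤
      B * ∫ u in Ioi (1 : ℝ), u ^ (-ρ.re - 1) * Real.log u ^ j := by
  have hy0 : 0 < y := by linarith
  set g : ℝ → ℝ := fun u => u ^ (-ρ.re - 1) * (Real.log u - Real.log y) ^ j with hg
  have h1 : ∀ x ∈ Ioi (1 : ℝ), g (y * x) = y ^ (-ρ.re - 1) * (x ^ (-ρ.re - 1) * Real.log x ^ j) := by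
    intro x hx
    have hx0 : (0 : ℝ) < x := lt_trans one_pos hx
    simp only [hg]
    rw [Real.mul_rpow hy0.le hx0.le, Real.log_mul hy0.ne' hx0.ne', add_sub_cancel_left]
    ring
  have hi1 : IntegrableOn (fun x => g (y * x)) (Ioi 1) := by
    refine IntegrableOn.congr_fun ((wint h j).const_mul (y ^ (-ρ.re - 1))) ?_ measurableSet_Ioi
    intro x hx
    exact (h1 x hx).symm
  have hi : IntegrableOn g (Ioi y) := by
    have := (integrableOn_Ioi_comp_mul_left_iff g 1 hy0).1 hi1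
    rwa [mul_one] at this
  have hval : ∫ u in Ioi y, g u =
      y * (y ^ (-ρ.re - 1) * ∫ u in Ioi (1 : ℝ), u ^ (-ρ.re - 1) * Real.log u ^ j) := by
    have h2 := integral_comp_mul_left_Ioi g 1 hy0
    rw [mul_one, setIntegral_congr_fun measurableSet_Ioi h1, integral_const_mul, smul_eq_mul] at h2
    rw [h2]
    field_simp
  have h3 : ‖∫ u in Ioi y, W χ ρ y j u‖ ≤ ∫ u in Ioi y, B * g u := by
    refine norm_integral_le_of_norm_le (hi.const_mul B) ?_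
    refine (ae_restrict_iff' measurableSet_Ioi).2 (Eventually.of_forall fun u hu => ?_)
    have hu' : y < u := hu
    have hu0 : 0 < u := by linarith
    have hl : 0 ≤ Real.log u - Real.log y := by
      have := Real.log_le_log hy0 hu'.le
      linarith
    have h4 : (-ρ - 1).re = -ρ.re - 1 := by simp
    rw [W, norm_mul, norm_mul, norm_pow, ← Complex.ofReal_sub, Complex.norm_real,
      Complex.norm_cpow_eq_rpow_re_of_pos hu0, h4, norm_sub_rev (Real.log y),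
      Real.norm_of_nonneg hl, mul_assoc]
    exact mul_le_mul_of_nonneg_right (hB u) (by positivity)
  rw [norm_mul, Complex.norm_cpow_eq_rpow_re_of_pos hy0]
  rw [integral_const_mul, hval] at h3
  calc y ^ ρ.re * ‖∫ u in Ioi y, W χ ρ y j u‖
      ≤ y ^ ρ.re * (B * (y * (y ^ (-ρ.re - 1) *
        ∫ u in Ioi (1 : ℝ), u ^ (-ρ.re - 1) * Real.log u ^ j))) :=
        mul_le_mul_of_nonneg_left h3 (by positivity)
    _ = (y ^ ρ.re * (y * y ^ (-ρ.re - 1))) *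
        (B * ∫ u in Ioi (1 : ℝ), u ^ (-ρ.re - 1) * Real.log u ^ j) := by ring
    _ = B * ∫ u in Ioi (1 : ℝ), u ^ (-ρ.re - 1) * Real.log u ^ j := by
        have h5 : y ^ ρ.re * (y * y ^ (-ρ.re - 1)) = 1 := by
          rw [show y * y ^ (-ρ.re - 1) = y ^ (1 : ℝ) * y ^ (-ρ.re - 1) by rw [Real.rpow_one],
            ← Real.rpow_add hy0, ← Real.rpow_add hy0]
          rw [show ρ.re + (1 + (-ρ.re - 1)) = 0 by ring, Real.rpow_zero]
        rw [h5, one_mul]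

theorem split {B : ℝ} (hB : ∀ u, ‖Sa χ u‖ ≤ B) {ρ : ℂ} (h : 0 < ρ.re) {y : ℝ} (hy : 1 ≤ y)
    {r : ℕ} (hz : ∀ i, i < r + 1 → ∫ u in Ioi (1 : ℝ), Sa χ u * (u : ℂ) ^ (-ρ - 1) *
      (Real.log u : ℂ) ^ i = 0) {j : ℕ} (hj : j ≤ r) :
    ∫ u in Ioc (1 : ℝ) y, W χ ρ y j u = -∫ u in Ioi y, W χ ρ y j u := by
  have h1 := W_zero χ hB h y hz hj
  have h2 := W_int χ hB h y j
  rw [← Ioc_union_Ioi_eq_Ioi hy, setIntegral_union (Set.Ioc_disjoint_Ioi le_rfl) measurableSet_Ioi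
    (h2.mono_set Ioc_subset_Ioi_self) (h2.mono_set (Ioi_subset_Ioi hy))] at h1
  exact eq_neg_of_add_eq_zero_left h1

/-- the smooth weight -/
noncomputable def g (ρ : ℂ) (r : ℕ) (y t : ℝ) : ℂ :=
  (y : ℂ) ^ ρ * ((t : ℂ) ^ (-ρ) * ((Real.log y : ℂ) - (Real.log t : ℂ)) ^ r)

theorem g_eq (ρ : ℂ) (r : ℕ) {y : ℝ} (hy : 0 < y) {n : ℕ} (hn : 1 ≤ n) :
    g ρ r y n = ph ρ r (y / n) := by
  have hn0 : (0 : ℝ) < n := by exact_mod_cast hn
  have h1 := Complex.mul_cpow_ofReal_nonneg (a := y / n) (b := n) (by positivity) hn0.le ρ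
  rw [← Complex.ofReal_mul, div_mul_cancel₀ y hn0.ne'] at h1
  have h2 : ((n : ℝ) : ℂ) ^ ρ ≠ 0 := by
    rw [← norm_pos_iff, Complex.norm_cpow_eq_rpow_re_of_pos hn0]
    positivity
  rw [g, ph, h1, Complex.cpow_neg, Real.log_div hy.ne' hn0.ne', Complex.ofReal_sub]
  field_simp

/-- its derivative -/
noncomputable def g' (ρ : ℂ) (r : ℕ) (y t : ℝ) : ℂ :=
  -((y : ℂ) ^ ρ * ((t : ℂ) ^ (-ρ - 1) * (ρ * ((Real.log y : ℂ) - (Real.log t : ℂ)) ^ r +
    r * ((Real.log y : ℂ) - (Real.log t : ℂ)) ^ (r - 1))))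

theorem g_deriv {ρ : ℂ} (hρ : ρ ≠ 0) (r : ℕ) (y : ℝ) {t : ℝ} (ht : 0 < t) :
    HasDerivAt (g ρ r y) (g' ρ r y t) t := by
  have ht1 : (t : ℂ) ≠ 0 := by exact_mod_cast ht.ne'
  have h1 := hasDerivAt_ofReal_cpow_const (x := t) ht.ne' (r := -ρ) (neg_ne_zero.2 hρ)
  have h2 := ((Real.hasDerivAt_log ht.ne').ofReal_comp.const_sub (Real.log y : ℂ)).pow r
  have h3 := (h1.mul h2).const_mul ((y : ℂ) ^ ρ)
  refine h3.congr_deriv ?_
  have h4 : (t : ℂ) ^ (-ρ) = (t : ℂ) ^ (-ρ - 1) * t := by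
    rw [Complex.cpow_sub _ _ ht1, Complex.cpow_one]
    field_simp
  simp only [g', Pi.pow_apply]
  rw [h4]
  push_cast
  field_simp
  ring

theorem g'_cont (ρ : ℂ) (r : ℕ) (y : ℝ) : ContinuousOn (g' ρ r y) (Icc 1 y) := by
  intro u hu
  have hu0 : (0 : ℝ) < u := lt_of_lt_of_le one_pos hu.1
  have h1 : ContinuousAt (fun u : ℝ => (u : ℂ) ^ (-ρ - 1)) u :=
    Complex.continuousAt_ofReal_cpow_const u _ (Or.inr hu0.ne')
  have h2 : ContinuousAt (fun u : ℝ => (Real.log y : ℂ) - ((Real.log u : ℝ) : ℂ)) u :=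
    continuousAt_const.sub
      (Complex.continuous_ofReal.continuousAt.comp (Real.continuousAt_log hu0.ne'))
  exact ((continuousAt_const.mul (h1.mul ((continuousAt_const.mul (h2.pow r)).add
    (continuousAt_const.mul (h2.pow (r - 1))))))).neg.continuousWithinAt

theorem sum01 (F : ℕ → ℂ) (h : F 0 = 0) (N : ℕ) :
    ∑ k ∈ Finset.Icc 0 N, F k = ∑ k ∈ Finset.Icc 1 N, F k := by
  symm
  refine Finset.sum_subset (fun k hk => ?_) (fun k hk hk' => ?_)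
  · simp only [Finset.mem_Icc] at *
    omega
  · simp only [Finset.mem_Icc] at *
    have h1 : k = 0 := by omega
    rw [h1, h]

theorem kk_eq {ρ : ℂ} (hρ : ρ ≠ 0) (r : ℕ) {y : ℝ} (hy : 1 ≤ y) :
    kk χ ρ r y = g ρ r y y * Sa χ y - ∫ t in Ioc (1 : ℝ) y, g' ρ r y t * Sa χ t := by
  have hy0 : 0 < y := by linarith
  set c : ℕ → ℂ := fun n => if n = 0 then 0 else ac χ n with hc
  have hc0 : c 0 = 0 := by simp [hc]
  have hcn : ∀ n : ℕ, 1 ≤ n → c n = ac χ n := fun n hn => by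
    simp only [hc]
    rw [if_neg (by omega)]
  have hd : ∀ t ∈ Icc (1 : ℝ) y, deriv (g ρ r y) t = g' ρ r y t := fun t ht =>
    (g_deriv hρ r y (lt_of_lt_of_le one_pos ht.1)).deriv
  have h1 := sum_mul_eq_sub_integral_mul₀ c hc0 (f := g ρ r y) y
    (fun t ht => (g_deriv hρ r y (lt_of_lt_of_le one_pos ht.1)).differentiableAt)
    (IntegrableOn.congr_fun ((g'_cont ρ r y).integrableOn_Icc) (fun t ht => (hd t ht).symm)
      measurableSet_Icc)
  have h2 : ∀ x : ℝ, ∑ k ∈ Finset.Icc 0 ⌊x⌋₊, c k = Sa χ x := by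
    intro x
    rw [sum01 c hc0]
    exact Finset.sum_congr rfl fun k hk => hcn k (Finset.mem_Icc.1 hk).1
  have h3 : ∑ k ∈ Finset.Icc 0 ⌊y⌋₊, g ρ r y k * c k = kk χ ρ r y := by
    rw [sum01 (fun k => g ρ r y k * c k) (by simp [hc0])]
    refine Finset.sum_congr rfl fun k hk => ?_
    have hk1 := (Finset.mem_Icc.1 hk).1
    rw [hcn k hk1, g_eq ρ r hy0 hk1, mul_comm]
  rw [h3] at h1
  simp only [h2] at h1
  rw [h1]
  congr 1
  refine setIntegral_congr_fun measurableSet_Ioc fun t ht => ?_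
  show deriv (g ρ r y) t * Sa χ t = g' ρ r y t * Sa χ t
  rw [hd t ⟨ht.1.le, ht.2⟩]

/-- **JOB X2** -/
theorem t_X2 (x1 : J_X1) : J_X2 := by
  intro q _ χ ρ r h0 h1 hord
  obtain ⟨⟨B, hB⟩, hz'⟩ := x1 q χ
  have hz := hz' ρ (r + 1) h0 h1 hord
  have hρ : ρ ≠ 0 := by rintro rfl; simp at h0
  refine ⟨B + ‖ρ‖ * (B * ∫ u in Ioi (1 : ℝ), u ^ (-ρ.re - 1) * Real.log u ^ r) +
    r * (B * ∫ u in Ioi (1 : ℝ), u ^ (-ρ.re - 1) * Real.log u ^ (r - 1)), fun y hy => ?_⟩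
  have hy0 : 0 < y := by linarith
  have hi : ∀ j, IntegrableOn (W χ ρ y j) (Ioc 1 y) := fun j =>
    (W_int χ hB h0 y j).mono_set Ioc_subset_Ioi_self
  have hint : ∫ t in Ioc (1 : ℝ) y, g' ρ r y t * Sa χ t =
      -((y : ℂ) ^ ρ * (ρ * (∫ t in Ioc (1 : ℝ) y, W χ ρ y r t) +
        r * ∫ t in Ioc (1 : ℝ) y, W χ ρ y (r - 1) t)) := by
    rw [← integral_const_mul, ← integral_const_mul,
      ← integral_add ((hi r).const_mul _) ((hi (r - 1)).const_mul _), ← integral_const_mul,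
      ← integral_neg]
    refine setIntegral_congr_fun measurableSet_Ioc fun t ht => ?_
    simp only [g', W]
    ring
  have hk := kk_eq χ hρ r hy
  rw [hint, split χ hB h0 hy hz le_rfl, split χ hB h0 hy hz (Nat.sub_le r 1)] at hk
  have hk2 : kk χ ρ r y = g ρ r y y * Sa χ y - ρ * ((y : ℂ) ^ ρ * ∫ u in Ioi y, W χ ρ y r u) -
      r * ((y : ℂ) ^ ρ * ∫ u in Ioi y, W χ ρ y (r - 1) u) := by
    rw [hk]
    ring
  have hg : ‖g ρ r y y‖ ≤ 1 := by
    rw [g, sub_self, ← mul_assoc, norm_mul, norm_mul, Complex.norm_cpow_eq_rpow_re_of_pos hy0,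
      Complex.norm_cpow_eq_rpow_re_of_pos hy0, ← Real.rpow_add hy0, Complex.neg_re,
      add_neg_cancel, Real.rpow_zero, one_mul, norm_pow, norm_zero]
    rcases Nat.eq_zero_or_pos r with h | h
    · rw [h, pow_zero]
    · rw [zero_pow h.ne']
      exact zero_le_one
  have hB0 : 0 ≤ B := (norm_nonneg _).trans (hB 0)
  rw [hk2]
  refine (norm_sub_le _ _).trans (add_le_add ((norm_sub_le _ _).trans (add_le_add ?_ ?_)) ?_)
  · rw [norm_mul]
    calc ‖g ρ r y y‖ * ‖Sa χ y‖ ≤ 1 * B := mul_le_mul hg (hB y) (norm_nonneg _) zero_le_one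
      _ = B := one_mul B
  · rw [norm_mul]
    exact mul_le_mul_of_nonneg_left (tail χ hB h0 hy r) (norm_nonneg _)
  · rw [norm_mul, Complex.norm_natCast]
    exact mul_le_mul_of_nonneg_left (tail χ hB h0 hy (r - 1)) (Nat.cast_nonneg r)

end Pool.Agent.Q149.FX.X2
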