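import Pool.Agent.Q120.FX.Stm1

/-!
# Project FX, job X4: lower bound for `G(x) - 2 G(x/2)`
-/

set_option autoImplicit false
set_option linter.all false

namespace Pool.Agent.Q149.FX.X4

open Pool.Agent.Q120.FX MeasureTheory Filter Topology Set

theorem ph_cont (ρ : ℂ) (r : ℕ) : ContinuousOn (fun u : ℝ => ph ρ r u / u) (Ici 1) := by
  intro u hu
  have hu0 : (0 : ℝ) < u := lt_of_lt_of_le one_pos hu
  have h1 : ContinuousAt (fun u : ℝ => (u : ℂ) ^ ρ) u :=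
    Complex.continuousAt_ofReal_cpow_const u ρ (Or.inr hu0.ne')
  have h2 : ContinuousAt (fun u : ℝ => ((Real.log u : ℝ) : ℂ) ^ r) u :=
    (Complex.continuous_ofReal.continuousAt.comp (Real.continuousAt_log hu0.ne')).pow r
  have h3 : ContinuousAt (fun u : ℝ => (u : ℂ)) u := Complex.continuous_ofReal.continuousAt
  exact ((h1.mul h2).div h3 (by exact_mod_cast hu0.ne')).continuousWithinAt

theorem ph_int (ρ : ℂ) (r : ℕ) {x : ℝ} (hx : 1 ≤ x) :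
    IntervalIntegrable (fun u : ℝ => ph ρ r u / u) volume 1 x := by
  refine (ContinuousOn.mono (ph_cont ρ r) ?_).intervalIntegrable
  rw [uIcc_of_le hx]
  exact fun u hu => hu.1

theorem Gr_eq (ρ : ℂ) (r : ℕ) {x : ℝ} (hx : 1 ≤ x) :
    Gr ρ r x = ∫ u in (1 : ℝ)..x, ph ρ r u / u := by
  rw [intervalIntegral.integral_of_le hx]
  rfl

theorem dpow (ρ : ℂ) (hρ : ρ ≠ 0) {u : ℝ} (hu : 0 < u) :
    HasDerivAt (fun y : ℝ => (y : ℂ) ^ ρ / ρ) ((u : ℂ) ^ ρ / u) u := by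
  have h := (hasDerivAt_ofReal_cpow_const (x := u) hu.ne' (r := ρ) hρ).div_const ρ
  rw [Complex.cpow_sub _ _ (by exact_mod_cast hu.ne'), Complex.cpow_one] at h
  refine h.congr_deriv ?_
  field_simp

theorem rec0 {ρ : ℂ} (hρ : ρ ≠ 0) {x : ℝ} (hx : 1 ≤ x) :
    Gr ρ 0 x = (x : ℂ) ^ ρ / ρ - 1 / ρ := by
  rw [Gr_eq ρ 0 hx]
  have h := intervalIntegral.integral_eq_sub_of_hasDerivAt (a := 1) (b := x)
    (f := fun y : ℝ => (y : ℂ) ^ ρ / ρ) (f' := fun u : ℝ => ph ρ 0 u / u)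
    (fun u hu => by
      rw [uIcc_of_le hx] at hu
      have := dpow ρ hρ (lt_of_lt_of_le one_pos hu.1)
      simpa [ph] using this) (ph_int ρ 0 hx)
  rw [h]
  simp

theorem recS {ρ : ℂ} (hρ : ρ ≠ 0) (r : ℕ) {x : ℝ} (hx : 1 ≤ x) :
    Gr ρ (r + 1) x = (x : ℂ) ^ ρ * (Real.log x : ℂ) ^ (r + 1) / ρ -
      ((r : ℂ) + 1) / ρ * Gr ρ r x := by
  rw [Gr_eq ρ _ hx, Gr_eq ρ _ hx]
  have h := intervalIntegral.integral_eq_sub_of_hasDerivAt (a := 1) (b := x)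
    (f := fun y : ℝ => (y : ℂ) ^ ρ / ρ * (Real.log y : ℂ) ^ (r + 1))
    (f' := fun u : ℝ => ph ρ (r + 1) u / u + ((r : ℂ) + 1) / ρ * (ph ρ r u / u))
    (fun u hu => by
      rw [uIcc_of_le hx] at hu
      have hu0 : 0 < u := lt_of_lt_of_le one_pos hu.1
      have h1 := dpow ρ hρ hu0
      have h2 := (Real.hasDerivAt_log hu0.ne').ofReal_comp
      have h3 := h1.mul (h2.pow (r + 1))
      refine h3.congr_deriv ?_
      have hu1 : (u : ℂ) ≠ 0 := by exact_mod_cast hu0.ne'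
      simp only [ph, Nat.add_sub_cancel, Complex.ofReal_inv, Pi.pow_apply]
      push_cast
      field_simp) ((ph_int ρ (r + 1) hx).add ((ph_int ρ r hx).const_mul _))
  rw [intervalIntegral.integral_add (ph_int ρ (r + 1) hx) ((ph_int ρ r hx).const_mul _),
    intervalIntegral.integral_const_mul] at h
  have h0 : (((1 : ℝ) : ℂ) ^ ρ / ρ * ((Real.log 1 : ℝ) : ℂ) ^ (r + 1)) = 0 := by
    simp
  rw [h0, sub_zero] at h
  rw [eq_sub_iff_add_eq, h]
  ring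

theorem norm_pow {ρ : ℂ} {x : ℝ} (hx : 0 < x) : ‖(x : ℂ) ^ ρ‖ = x ^ ρ.re :=
  Complex.norm_cpow_eq_rpow_re_of_pos hx ρ

theorem inv_tend {ρ : ℂ} (h : 0 < ρ.re) :
    Tendsto (fun x : ℝ => ((x : ℂ) ^ ρ)⁻¹) atTop (𝓝 0) := by
  rw [tendsto_zero_iff_norm_tendsto_zero]
  refine ((tendsto_rpow_atTop h).inv_tendsto_atTop).congr' ?_
  filter_upwards [eventually_gt_atTop 0] with x hx
  rw [norm_inv, norm_pow hx]
  rfl

theorem log_inv : Tendsto (fun x : ℝ => ((Real.log x : ℝ) : ℂ)⁻¹) atTop (𝓝 0) := by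
  rw [tendsto_zero_iff_norm_tendsto_zero]
  refine (Real.tendsto_log_atTop.inv_tendsto_atTop).congr' ?_
  filter_upwards [eventually_ge_atTop 1] with x hx
  rw [norm_inv, Complex.norm_real, Real.norm_of_nonneg (Real.log_nonneg hx)]
  rfl

/-- the main term -/
noncomputable def D (ρ : ℂ) (r : ℕ) (x : ℝ) : ℂ := (x : ℂ) ^ ρ * (Real.log x : ℂ) ^ r

theorem T_lim {ρ : ℂ} (h : 0 < ρ.re) (r : ℕ) :
    Tendsto (fun x : ℝ => Gr ρ r x / D ρ r x) atTop (𝓝 (1 / ρ)) := by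
  have hρ : ρ ≠ 0 := by rintro rfl; simp at h
  induction r with
  | zero =>
    have h1 : Tendsto (fun x : ℝ => 1 / ρ - 1 / ρ * ((x : ℂ) ^ ρ)⁻¹) atTop
        (𝓝 (1 / ρ - 1 / ρ * 0)) := tendsto_const_nhds.sub ((inv_tend h).const_mul _)
    rw [mul_zero, sub_zero] at h1
    refine h1.congr' ?_
    filter_upwards [eventually_ge_atTop 1] with x hx
    have hx0 : (x : ℂ) ^ ρ ≠ 0 := by
      rw [← norm_pos_iff, norm_pow (by linarith)]
      exact Real.rpow_pos_of_pos (by linarith) _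
    rw [rec0 hρ hx, D, pow_zero, mul_one]
    field_simp
  | succ r ih =>
    have h1 : Tendsto (fun x : ℝ => 1 / ρ - ((r : ℂ) + 1) / ρ *
        (Gr ρ r x / D ρ r x * ((Real.log x : ℝ) : ℂ)⁻¹)) atTop
        (𝓝 (1 / ρ - ((r : ℂ) + 1) / ρ * (1 / ρ * 0))) :=
      tendsto_const_nhds.sub ((ih.mul log_inv).const_mul _)
    rw [mul_zero, mul_zero, sub_zero] at h1
    refine h1.congr' ?_
    filter_upwards [eventually_gt_atTop 1] with x hx
    have hx0 : (x : ℂ) ^ ρ ≠ 0 := by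
      rw [← norm_pos_iff, norm_pow (by linarith)]
      exact Real.rpow_pos_of_pos (by linarith) _
    have hl : ((Real.log x : ℝ) : ℂ) ≠ 0 := by exact_mod_cast (Real.log_pos hx).ne'
    rw [recS hρ r hx.le, D, D, pow_succ]
    field_simp

theorem half_pow {ρ : ℂ} {x : ℝ} (hx : 0 < x) :
    ((x / 2 : ℝ) : ℂ) ^ ρ = (x : ℂ) ^ ρ * ((2 : ℂ) ^ ρ)⁻¹ := by
  have h1 : (x : ℂ) ^ ρ = (2 : ℂ) ^ ρ * ((x / 2 : ℝ) : ℂ) ^ ρ := by
    have h2 := Complex.mul_cpow_ofReal_nonneg (a := 2) (b := x / 2) (by norm_num) (by positivity) ρ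
    rw [← Complex.ofReal_mul, show (2 : ℝ) * (x / 2) = x by ring] at h2
    simpa using h2
  have h2 : (2 : ℂ) ^ ρ ≠ 0 := by
    have := norm_pow (ρ := ρ) (x := 2) (by norm_num)
    rw [← norm_pos_iff]
    have h3 : ((2 : ℝ) : ℂ) = 2 := by norm_num
    rw [h3] at this
    rw [this]
    positivity
  rw [h1]
  field_simp

theorem two_norm (ρ : ℂ) : ‖(2 : ℂ) ^ ρ‖ = 2 ^ ρ.re := by
  have := norm_pow (ρ := ρ) (x := 2) (by norm_num)
  have h3 : ((2 : ℝ) : ℂ) = 2 := by norm_num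
  rwa [h3] at this

theorem two_ne (ρ : ℂ) : (2 : ℂ) ^ ρ ≠ 0 := by
  rw [← norm_pos_iff, two_norm]
  positivity

theorem D_ratio {ρ : ℂ} (r : ℕ) :
    Tendsto (fun x : ℝ => D ρ r (x / 2) / D ρ r x) atTop (𝓝 (((2 : ℂ) ^ ρ)⁻¹)) := by
  have h1 : Tendsto (fun x : ℝ => ((2 : ℂ) ^ ρ)⁻¹ *
      (1 - (Real.log 2 : ℂ) * ((Real.log x : ℝ) : ℂ)⁻¹) ^ r) atTop
      (𝓝 (((2 : ℂ) ^ ρ)⁻¹ * (1 - (Real.log 2 : ℂ) * 0) ^ r)) :=
    ((tendsto_const_nhds.sub (log_inv.const_mul _)).pow r).const_mul _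
  rw [mul_zero, sub_zero, one_pow, mul_one] at h1
  refine h1.congr' ?_
  filter_upwards [eventually_gt_atTop 1] with x hx
  have hx0 : (x : ℂ) ^ ρ ≠ 0 := by
    rw [← norm_pos_iff, norm_pow (by linarith)]
    exact Real.rpow_pos_of_pos (by linarith) _
  have hl : ((Real.log x : ℝ) : ℂ) ≠ 0 := by exact_mod_cast (Real.log_pos hx).ne'
  have h2 : (1 - (Real.log 2 : ℂ) * ((Real.log x : ℝ) : ℂ)⁻¹) =
      ((Real.log (x / 2) : ℝ) : ℂ) / ((Real.log x : ℝ) : ℂ) := by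
    rw [Real.log_div (by linarith) (by norm_num), Complex.ofReal_sub]
    field_simp
  rw [h2, D, D, half_pow (by linarith), div_pow]
  field_simp

/-- **JOB X4** -/
theorem t_X4 : J_X4 := by
  intro ρ r h0 h1
  have hρ : ρ ≠ 0 := by rintro rfl; simp at h0
  have hlim : Tendsto (fun x : ℝ => (Gr ρ r x - 2 * Gr ρ r (x / 2)) / D ρ r x) atTop
      (𝓝 (1 / ρ - 2 * (1 / ρ * ((2 : ℂ) ^ ρ)⁻¹))) := by
    have h2 := (T_lim h0 r)
    have h3 := ((T_lim h0 r).comp (tendsto_id.atTop_div_const (by norm_num : (0 : ℝ) < 2))).mul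
      (D_ratio (ρ := ρ) r)
    refine (h2.sub (h3.const_mul 2)).congr' ?_
    filter_upwards [eventually_gt_atTop 2] with x hx
    have hx0 : (x : ℂ) ^ ρ ≠ 0 := by
      rw [← norm_pos_iff, norm_pow (by linarith)]
      exact Real.rpow_pos_of_pos (by linarith) _
    have hl : ((Real.log x : ℝ) : ℂ) ≠ 0 := by
      exact_mod_cast (Real.log_pos (by linarith)).ne'
    have hx1 : ((x / 2 : ℝ) : ℂ) ^ ρ ≠ 0 := by
      rw [← norm_pos_iff, norm_pow (by linarith)]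
      exact Real.rpow_pos_of_pos (by linarith) _
    have hl1 : ((Real.log (x / 2) : ℝ) : ℂ) ≠ 0 := by
      exact_mod_cast (Real.log_pos (by linarith)).ne'
    have hD : D ρ r x ≠ 0 := mul_ne_zero hx0 (pow_ne_zero _ hl)
    have hD1 : D ρ r (x / 2) ≠ 0 := mul_ne_zero hx1 (pow_ne_zero _ hl1)
    show Gr ρ r x / D ρ r x - 2 * (Gr ρ r (x / 2) / D ρ r (x / 2) * (D ρ r (x / 2) / D ρ r x)) = _
    field_simp
  have hne : 1 / ρ - 2 * (1 / ρ * ((2 : ℂ) ^ ρ)⁻¹) ≠ 0 := by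
    intro h
    have h2 : (2 : ℂ) ^ ρ = 2 := by
      have h3 := two_ne ρ
      field_simp at h
      linear_combination h
    have h3 := two_norm ρ
    rw [h2] at h3
    have h4 : (2 : ℝ) ^ ρ.re < 2 ^ (1 : ℝ) :=
      Real.rpow_lt_rpow_of_exponent_lt (by norm_num) h1
    rw [Real.rpow_one, ← h3] at h4
    simp at h4
  set ℓ : ℂ := 1 / ρ - 2 * (1 / ρ * ((2 : ℂ) ^ ρ)⁻¹) with hℓ
  have hpos : 0 < ‖ℓ‖ := norm_pos_iff.2 hne
  refine ⟨‖ℓ‖ / 2, by positivity, ?_⟩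
  filter_upwards [hlim.norm.eventually (lt_mem_nhds (half_lt_self hpos)),
    eventually_gt_atTop 1] with x hx hx1
  have hD : ‖D ρ r x‖ = x ^ ρ.re * Real.log x ^ r := by
    rw [D, norm_mul, norm_pow (by linarith), _root_.norm_pow, Complex.norm_real,
      Real.norm_of_nonneg (Real.log_nonneg hx1.le)]
  have hDpos : 0 < ‖D ρ r x‖ := by
    rw [hD]
    have := Real.log_pos hx1
    positivity
  rw [norm_div, lt_div_iff₀ hDpos, hD] at hx
  exact hx.le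

end Pool.Agent.Q149.FX.X4
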